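import Pool.Agent.H659R3.BigMCG.NotFG

/-! MP_c3425d_gt, Q1, in the negative: there are surfaces `S`, `S'` of infinite type, a
homomorphism `f : Map(S) → Map(S')` and a compactly supported `g` in `Map(S)` (a Dehn twist) such
that `f (g ^ n)` is not compactly supported for any `n ≠ 0`. Here `S` is a torus minus a
convergent sequence of points and its limit, `S'` is the preimage of `S` in the universal cover of
the torus, and `f` lifts mapping classes so that they fix the limit puncture at the origin. -/

set_option autoImplicit false

namespace Pool.Agent.Results.MP_c3425d_gt.LiftedDehnTwist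

open Pool.Agent.H659R3.BigMCG

theorem result :
    ∃ (S S' : Type) (_ : TopologicalSpace S) (_ : TopologicalSpace S')
      (_ : OrientedSurface S) (_ : OrientedSurface S'),
      InfiniteType S ∧ InfiniteType S' ∧
      ∃ (f : Map S →* Map S') (g : Map S), IsCompactlySupported g ∧
        ∀ n : ℤ, n ≠ 0 → ¬ IsCompactlySupported (f (g ^ n)) := by
  refine ⟨SS, SP, inferInstance, inferInstance, inferInstance, inferInstance,
    SS_infiniteType, SP_infiniteType, mapLift, toMap (twP 1),
    twist_supported 1, fun n hn => ?_⟩
  have h : (toMap (twP 1)) ^ n = toMap (twP n) := by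
    rw [← map_zpow, twP_pow]
  rw [h]
  exact lift_twist_not_supported n hn

end Pool.Agent.Results.MP_c3425d_gt.LiftedDehnTwist
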